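import Pool.Agent.NIPFields.RB.Crit
import Pool.Agent.NIPFields.RB.HasL
import Pool.Agent.NIPFields.FI.Global

/-!
# No rainbow translates in an NIP field of positive characteristic

Let `L` be an NIP field of characteristic `p > 0` and `ℓ ≠ p` a prime. If all finite subsets of `L`
had a rainbow translate (all ratios of different elements are no `ℓ`-th powers), the formula
`∃ z, y - a = z ^ ℓ * (x - a)` would have the independence property: take the elements `a i` of
finite fields of prime degrees `π i` over the field with `q` elements, `ℓ ∣ q - 1`, and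
`y = x ^ (q ^ m)` with `m` the product of the `π i`, `i ∈ J`. Then `y - a i = (x - a') ^ (q ^ m)`
for the conjugate `a'` of `a i` with `a' ^ (q ^ m) = a i`, and `a' = a i` if and only if `i ∈ J`.
-/

set_option autoImplicit false

namespace Pool.Agent.PCH

open FirstOrder FirstOrder.Language FirstOrder.Ring
open Pool.Agent.NIPFields Pool.Agent.NIPFields.RB Pool.Agent.NIPFields.LG

universe u

/-- The relation `∃ z, y - a = z ^ N * (x - a)` does not shatter large sets in an NIP field. -/
theorem nip_rel {L : Type u} [Field L] [CompatibleRing L] (hL : NIP L) (N : ℕ) :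
    ∃ n : ℕ, ∀ (a : Fin n → L) (x y : Finset (Fin n) → L), ∃ (i : Fin n) (J : Finset (Fin n)),
      ¬ ((∃ z : L, y J - a i = z ^ N * (x J - a i)) ↔ i ∈ J) := by
  let A : FreeCommRing ((Fin 1 ⊕ Fin 2) ⊕ Fin 1) := FreeCommRing.of (Sum.inl (Sum.inl 0))
  let X : FreeCommRing ((Fin 1 ⊕ Fin 2) ⊕ Fin 1) := FreeCommRing.of (Sum.inl (Sum.inr 0))
  let Y : FreeCommRing ((Fin 1 ⊕ Fin 2) ⊕ Fin 1) := FreeCommRing.of (Sum.inl (Sum.inr 1))
  let Z : FreeCommRing ((Fin 1 ⊕ Fin 2) ⊕ Fin 1) := FreeCommRing.of (Sum.inr 0)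
  let φ : Language.ring.Formula (Fin 1 ⊕ Fin 2) :=
    (BoundedFormula.ex (n := 0) (Term.bdEqual (termOfFreeCommRing (Y - A))
      (termOfFreeCommRing (Z ^ N * (X - A)))))
  obtain ⟨n, hn⟩ := hL 1 2 φ
  refine ⟨n, fun a x y => ?_⟩
  obtain ⟨i, J, h⟩ := hn (fun i _ => a i) (fun J => ![x J, y J])
  refine ⟨i, J, fun h1 => h ?_⟩
  rw [← h1]
  simp only [φ, Formula.Realize, BoundedFormula.realize_ex, BoundedFormula.realize_bdEqual,
    realize_termOfFreeCommRing, map_sub, map_mul, map_pow, FreeCommRing.lift_of, A, X, Y, Z,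
    Sum.elim_inl, Sum.elim_inr, Matrix.cons_val_zero, Matrix.cons_val_one]
  rfl

variable {p : ℕ} [hp : Fact p.Prime]

/-- An element of a finite field of prime degree `r` over the field with `q = p ^ e` elements. -/
theorem exists_orbit {L : Type u} [Field L] [CharP L p] (e r : ℕ) (he : e ≠ 0) (hr : r.Prime)
    (h : Has p L (e * r)) : ∃ α : L, ∀ m : ℕ, α ^ (p ^ e) ^ m = α ↔ r ∣ m := by
  classical
  have her : e * r ≠ 0 := mul_ne_zero he hr.ne_zero
  obtain ⟨σ⟩ := h
  let _ : Fintype (GaloisField p (e * r)) := Fintype.ofFinite _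
  have hcard : Fintype.card (GaloisField p (e * r)) = p ^ (e * r) := by
    rw [← Nat.card_eq_fintype_card, GaloisField.card p (e * r) her]
  have hex : ∃ β : GaloisField p (e * r), β ^ p ^ e ≠ β := by
    by_contra hcon
    push Not at hcon
    have h0 : (Polynomial.X ^ p ^ e - Polynomial.X : Polynomial (GaloisField p (e * r))) ≠ 0 :=
      FiniteField.X_pow_card_pow_sub_X_ne_zero _ he hp.out.one_lt
    have h1 : (Finset.univ : Finset (GaloisField p (e * r))) ⊆
        (Polynomial.X ^ p ^ e - Polynomial.X :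
          Polynomial (GaloisField p (e * r))).roots.toFinset := by
      intro β _
      rw [Multiset.mem_toFinset, Polynomial.mem_roots h0, Polynomial.IsRoot.def,
        Polynomial.eval_sub, Polynomial.eval_pow, Polynomial.eval_X, hcon β, sub_self]
    have h2 := Finset.card_le_card h1
    rw [Finset.card_univ, hcard] at h2
    have h3 := h2.trans ((Multiset.toFinset_card_le _).trans (Polynomial.card_roots' _))
    rw [FiniteField.X_pow_card_pow_sub_X_natDegree_eq _ he hp.out.one_lt] at h3
    have h4 : p ^ e < p ^ (e * r) :=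
      Nat.pow_lt_pow_right hp.out.one_lt (by nlinarith [hr.two_le, Nat.pos_of_ne_zero he])
    omega
  obtain ⟨β, hβ⟩ := hex
  have hβr : β ^ p ^ (e * r) = β := by
    have := FiniteField.pow_card β
    rwa [hcard] at this
  have hit : ∀ m, (fun x : L => x ^ p ^ e)^[m] (σ β) = (σ β) ^ (p ^ e) ^ m := by
    intro m
    induction m with
    | zero => simp
    | succ m ih =>
      rw [Function.iterate_succ_apply', ih, ← pow_mul, ← pow_succ]
  have hper : ∀ m, (σ β) ^ (p ^ e) ^ m = σ β ↔
      Function.minimalPeriod (fun x : L => x ^ p ^ e) (σ β) ∣ m := by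
    intro m
    rw [← Function.isPeriodicPt_iff_minimalPeriod_dvd, Function.IsPeriodicPt,
      Function.IsFixedPt, hit]
  have h1 : Function.minimalPeriod (fun x : L => x ^ p ^ e) (σ β) ∣ r := by
    rw [← hper, ← pow_mul, ← map_pow, hβr]
  have h2 : Function.minimalPeriod (fun x : L => x ^ p ^ e) (σ β) ≠ 1 := by
    intro h
    have h3 := (hper 1).2 (by rw [h])
    rw [pow_one, ← map_pow] at h3
    exact hβ (σ.injective h3)
  refine ⟨σ β, fun m => ?_⟩
  rw [hper, (hr.eq_one_or_self_of_dvd _ h1).resolve_left h2]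

/-- **No rainbow translates.** Let `L` be an NIP field of characteristic `p > 0` and `N` prime to
`p`. There is a finite subset `B` of `L` such that for every translate of `B` without `0` the ratio
of some two different elements is a nonzero `N`-th power. -/
theorem exists_noRainbow {L : Type u} [Field L] [CompatibleRing L] [Infinite L] [CharP L p]
    (hL : NIP L) {N : ℕ} (hN : N.Coprime p) : ∃ B : Finset L, NoRainbow (Pw L N) B := by
  classical
  have hN0 : N ≠ 0 := by
    rintro rfl
    rw [Nat.coprime_zero_left] at hN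
    exact hp.out.one_lt.ne' hN
  obtain ⟨n, hn⟩ := nip_rel hL N
  -- a power `q` of `p` such that `N` divides `q - 1`
  set e : ℕ := Nat.totient N with he
  have he0 : e ≠ 0 := (Nat.totient_pos.2 (Nat.pos_of_ne_zero hN0)).ne'
  set q : ℕ := p ^ e with hq
  have hq1 : 1 < q := Nat.one_lt_pow he0 hp.out.one_lt
  have hNq : N ∣ q - 1 := (Nat.modEq_iff_dvd' hq1.le).1 (Nat.ModEq.pow_totient hN.symm).symm
  have hNqm : ∀ m : ℕ, N ∣ q ^ m - 1 := fun m =>
    hNq.trans (by simpa using Nat.sub_dvd_pow_sub_pow q 1 m)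
  have hqp : ∀ (m : ℕ) (x y : L), (x - y) ^ q ^ m = x ^ q ^ m - y ^ q ^ m := by
    intro m x y
    rw [hq, ← pow_mul]
    exact sub_pow_char_pow x y _
  have hinj : ∀ (m : ℕ) (x y : L), x ^ q ^ m = y ^ q ^ m → x = y := by
    intro m x y h
    rw [← sub_eq_zero, ← hqp] at h
    exact sub_eq_zero.1 (pow_eq_zero_iff (pow_pos (by omega) m).ne' |>.1 h)
  -- the elements
  set r : Fin n → ℕ := fun i => Nat.nth Nat.Prime i with hr
  have hrp : ∀ i, (r i).Prime := fun i => Nat.prime_nth_prime i
  have hrinj : ∀ i j, r i = r j → i = j := fun i j h =>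
    Fin.ext (Nat.nth_injective Nat.infinite_setOfPred_prime h)
  choose α hα using fun i => exists_orbit (L := L) e (r i) he0 (hrp i)
    (has_all (p := p) hL (mul_ne_zero he0 (hrp i).ne_zero))
  have hdvd : ∀ (J : Finset (Fin n)) (i : Fin n), r i ∣ ∏ j ∈ J, r j ↔ i ∈ J := by
    intro J i
    rw [Prime.dvd_finsetProd_iff (hrp i).prime]
    constructor
    · rintro ⟨j, hj, h⟩
      rwa [hrinj i j ((Nat.prime_dvd_prime_iff_eq (hrp i) (hrp j)).1 h)]
    · exact fun h => ⟨i, h, dvd_refl _⟩
  set P : ℕ := ∏ j, r j with hP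
  have hP0 : 0 < P := Finset.prod_pos fun j _ => (hrp j).pos
  have hαP : ∀ i, α i ^ q ^ P = α i := fun i => (hα i P).2 ((hdvd _ i).2 (Finset.mem_univ i))
  set B : Finset L := (Finset.univ ×ˢ Finset.range (P + 1)).image
    fun x : Fin n × ℕ => α x.1 ^ q ^ x.2 with hB
  refine ⟨B, ?_⟩
  by_contra hcon
  rw [NoRainbow] at hcon
  push Not at hcon
  obtain ⟨c, hc, hcc⟩ := hcon
  obtain ⟨i, J, h⟩ := hn α (fun _ => -c) (fun J => (-c) ^ q ^ ∏ j ∈ J, r j)
  apply h
  set m : ℕ := ∏ j ∈ J, r j with hm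
  have hmP : m ≤ P := Nat.le_of_dvd hP0 (Finset.prod_dvd_prod_of_subset _ _ _ (Finset.subset_univ J))
  set β : L := α i ^ q ^ (P - m) with hβ
  have hβm : β ^ q ^ m = α i := by
    rw [hβ, ← pow_mul, ← pow_add, Nat.sub_add_cancel hmP, hαP]
  have hβB : β ∈ B := Finset.mem_image.2 ⟨(i, P - m), by simp, rfl⟩
  have hαB : α i ∈ B := Finset.mem_image.2 ⟨(i, 0), by simp, by simp⟩
  have hy : (-c) ^ q ^ m - α i = (-c - β) ^ q ^ m := by rw [hqp, hβm]
  have hxβ : -c - β ≠ 0 := fun h0 => hc β hβB (by linear_combination -h0)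
  obtain ⟨d, hd⟩ := hNqm m
  have hqm : q ^ m = N * d + 1 := by
    have := Nat.one_le_pow m q (by omega)
    omega
  have hpow : (-c - β) ^ q ^ m = ((-c - β) ^ d) ^ N * (-c - β) := by
    rw [hqm, pow_succ, ← pow_mul, mul_comm N d]
  have hiJ : i ∈ J ↔ β = α i := by
    rw [← hdvd J i, ← hm, ← hα i m]
    constructor
    · intro h1
      exact hinj m _ _ (by rw [hβm, h1])
    · intro h1
      have h2 := hβm
      rwa [h1] at h2
  rw [hiJ]
  show (∃ z : L, (-c) ^ q ^ m - α i = z ^ N * (-c - α i)) ↔ β = α i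
  rw [hy, hpow]
  constructor
  · rintro ⟨z, hz⟩
    by_contra hne
    have hxα : -c - α i ≠ 0 := fun h0 => hc (α i) hαB (by linear_combination -h0)
    have hz0 : z ≠ 0 := by
      rintro rfl
      rw [zero_pow hN0, zero_mul] at hz
      exact mul_ne_zero (pow_ne_zero _ (pow_ne_zero _ hxβ)) hxβ hz
    refine hcc β hβB (α i) hαB hne ⟨z / (-c - β) ^ d, div_ne_zero hz0 (pow_ne_zero _ hxβ), ?_⟩
    have h1 : (c + β) / (c + α i) = (-c - β) / (-c - α i) := by
      rw [← neg_div_neg_eq]
      congr 1 <;> ring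
    rw [h1, div_pow, div_eq_div_iff hxα (pow_ne_zero _ (pow_ne_zero _ hxβ))]
    linear_combination hz
  · intro h1
    exact ⟨(-c - β) ^ d, by rw [h1]⟩

/-- **Shelah's conjecture in positive characteristic.** -/
theorem shelah_positive {K : Type u} [Field K] [CompatibleRing K] (hK : NIP K) (p : ℕ)
    [Fact p.Prime] [CharP K p] :
    Finite K ∨ IsSepClosed K ∨ ∃ O : ValuationSubring K, O ≠ ⊤ ∧ HenselianLocalRing O ∧
      (Set.univ : Set K).Definable₁ Language.ring {x | x ∈ O} := by
  by_cases hfin : Finite K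
  · exact Or.inl hfin
  have : Infinite K := not_finite_iff_infinite.1 hfin
  right
  refine (FI.NIP.isSepClosed_or hK p).imp_right ?_
  rintro ⟨L, _, _, ℓ, hfd, _, hℓ, hℓp, ha⟩
  let _ : CompatibleRing L := compatibleRingOfRing L
  have hL : NIP L := hK.finite (Module.finBasis K L)
  have : Infinite L := Infinite.of_injective _ (algebraMap K L).injective
  have : CharP L p := charP_of_injective_algebraMap (algebraMap K L).injective p
  obtain ⟨B, hB⟩ := exists_noRainbow (p := p) hL
    ((Nat.coprime_primes hℓ (Fact.out : p.Prime)).2 hℓp)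
  exact theoremR hK hℓ hℓp ha hB

end Pool.Agent.PCH
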