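import Pool.Agent.PCH.Rainbow
import Pool.Agent.NIPFields.Final

/-!
# Stable fields of positive characteristic

A field in which no formula of the language of rings has the order property is NIP and has no
nontrivial definable valuation ring.
-/

set_option autoImplicit false

namespace Pool.Agent.PCH

open FirstOrder FirstOrder.Language FirstOrder.Ring
open Pool.Agent.NIPFields

universe u

/-- A field without order property is NIP. -/
theorem nip_of_stable {K : Type u} [Field K] [CompatibleRing K]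
    (hK : ∀ (m k : ℕ) (φ : Language.ring.Formula (Fin m ⊕ Fin k)),
      ∃ n : ℕ, ∀ (a : Fin n → Fin m → K) (b : Fin n → Fin k → K), ∃ i j : Fin n,
        ¬ (φ.Realize (Sum.elim (a i) (b j)) ↔ i < j)) : NIP K := by
  intro m k φ
  obtain ⟨n, hn⟩ := hK m k φ
  refine ⟨n, fun a b => ?_⟩
  obtain ⟨i, j, h⟩ := hn a fun j => b (Finset.univ.filter fun i => i < j)
  refine ⟨i, Finset.univ.filter fun i => i < j, fun h1 => h ?_⟩
  simpa using h1

/-- A field without order property has no definable nontrivial valuation ring. -/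
theorem eq_top_of_stable {K : Type u} [Field K] [CompatibleRing K]
    (hK : ∀ (m k : ℕ) (φ : Language.ring.Formula (Fin m ⊕ Fin k)),
      ∃ n : ℕ, ∀ (a : Fin n → Fin m → K) (b : Fin n → Fin k → K), ∃ i j : Fin n,
        ¬ (φ.Realize (Sum.elim (a i) (b j)) ↔ i < j)) (O : ValuationSubring K)
    (hO : (Set.univ : Set K).Definable₁ Language.ring {x | x ∈ O}) : O = ⊤ := by
  by_contra hne
  obtain ⟨q, ψ, c, hψ⟩ := exists_formula_of_definable hO
  obtain ⟨x, hx⟩ : ∃ x : K, x ∉ O := by
    by_contra h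
    push Not at h
    exact hne (eq_top_iff.2 fun x _ => h x)
  have hx0 : x ≠ 0 := fun h => hx (h ▸ O.zero_mem)
  have ht : x⁻¹ ∈ O := (O.mem_or_inv_mem x).resolve_left hx
  let tf : Fin 1 ⊕ Fin q → Language.ring.Term (Fin 1 ⊕ Fin (q + 1)) :=
    Sum.elim (fun _ => termOfFreeCommRing
      (FreeCommRing.of (Sum.inl 0) * FreeCommRing.of (Sum.inr 0))) fun i => Term.var (Sum.inr i.succ)
  let φ : Language.ring.Formula (Fin 1 ⊕ Fin (q + 1)) := ∼(BoundedFormula.subst ψ tf)
  obtain ⟨n, hn⟩ := hK 1 (q + 1) φ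
  obtain ⟨i, j, h⟩ := hn (fun i _ => x⁻¹ ^ (i : ℕ)) fun j => Fin.cons (x ^ (j : ℕ)) c
  apply h
  have h1 : φ.Realize
      (Sum.elim (fun _ => x⁻¹ ^ (i : ℕ)) (Fin.cons (x ^ (j : ℕ)) c : Fin (q + 1) → K)) ↔
      ¬ (x⁻¹ ^ (i : ℕ) * x ^ (j : ℕ) ∈ O) := by
    have h0 := hψ (x⁻¹ ^ (i : ℕ) * x ^ (j : ℕ))
    rw [show (x⁻¹ ^ (i : ℕ) * x ^ (j : ℕ) ∈ O) ↔ _ from h0, show φ = ∼(BoundedFormula.subst ψ tf)
      from rfl, Formula.realize_not, not_iff_not, Formula.Realize, Formula.Realize,
      BoundedFormula.realize_subst]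
    refine iff_of_eq (congrArg₂ _ ?_ rfl)
    funext s
    rcases s with s | s
    · simp [tf, realize_termOfFreeCommRing]
    · simp [tf]
  rw [h1]
  constructor
  · intro h2
    by_contra hij
    push Not at hij
    apply h2
    obtain ⟨d, hd⟩ := Nat.exists_eq_add_of_le (show (j : ℕ) ≤ i from hij)
    rw [hd, pow_add, mul_right_comm, ← mul_pow, inv_mul_cancel₀ hx0, one_pow, one_mul]
    exact pow_mem ht d
  · intro hij h2
    obtain ⟨d, hd⟩ := Nat.exists_eq_add_of_lt (show (i : ℕ) < j from hij)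
    rw [hd, add_assoc, pow_add, ← mul_assoc, ← mul_pow, inv_mul_cancel₀ hx0, one_pow, one_mul,
      pow_succ'] at h2
    apply hx
    have h3 := O.mul_mem _ _ h2 (pow_mem ht d)
    rwa [mul_assoc, ← mul_pow, mul_inv_cancel₀ hx0, one_pow, mul_one] at h3

/-- **Stable fields of positive characteristic.** Every infinite field of positive characteristic in
which no formula of the language of rings has the order property is separably closed. -/
theorem stable_sepClosed {K : Type u} [Field K] [CompatibleRing K] [Infinite K] (p : ℕ)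
    [Fact p.Prime] [CharP K p]
    (hK : ∀ (m k : ℕ) (φ : Language.ring.Formula (Fin m ⊕ Fin k)),
      ¬ ∀ n : ℕ, ∃ (a : Fin n → Fin m → K) (b : Fin n → Fin k → K),
        ∀ i j : Fin n, (φ.Realize (Sum.elim (a i) (b j)) ↔ i < j)) : IsSepClosed K := by
  have hK' : ∀ (m k : ℕ) (φ : Language.ring.Formula (Fin m ⊕ Fin k)),
      ∃ n : ℕ, ∀ (a : Fin n → Fin m → K) (b : Fin n → Fin k → K), ∃ i j : Fin n,
        ¬ (φ.Realize (Sum.elim (a i) (b j)) ↔ i < j) := by
    intro m k φ
    by_contra hcon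
    refine hK m k φ fun n => ?_
    by_contra hn
    refine hcon ⟨n, fun a b => ?_⟩
    by_contra h
    exact hn ⟨a, b, fun i j => by_contra fun h' => h ⟨i, j, h'⟩⟩
  rcases shelah_positive (nip_of_stable hK') p with h | h | ⟨O, hO, -, hd⟩
  · exact absurd h (not_finite_iff_infinite.2 inferInstance)
  · exact h
  · exact absurd (eq_top_of_stable hK' O hd) hO

end Pool.Agent.PCH
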